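import Mathlib

/-!
# Total domination of unitary Cayley graphs against Jacobsthal's function

For every `j` there are a modulus `n` (`30` times `8 j + 3` large primes) and
`30 j + 16` integers such that no integer is non-coprime to `n` after subtracting each of them,
while some `30 j + 17` consecutive integers are all non-coprime to `n`.
-/

namespace Pool.Agent.R5.JB

open Finset

/-- The positions `i` in the block of length `30 j + 17` with `20 + i` prime to `30`. -/
def T (j : ℕ) : Finset ℕ := (range (30 * j + 17)).filter (fun i => Nat.Coprime 30 (20 + i))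

lemma block (s : ℕ) : ((Ico s (s + 30)).filter (fun x => Nat.Coprime 30 x)).card = 8 := by
  have h := Nat.filter_coprime_Ico_eq_totient 30 s
  have h2 : Nat.totient 30 = 8 := by decide
  rw [h2] at h
  exact h

lemma shift_card (s a : ℕ) : ((Ico s (s + 30)).filter (fun i => Nat.Coprime 30 (a + i))).card = 8 := by
  rw [← block (a + s)]
  apply Finset.card_bij (fun x _ => a + x)
  · intro x hx
    simp only [mem_filter, mem_Ico] at hx ⊢
    exact ⟨⟨by omega, by omega⟩, hx.2⟩
  · intro x _ y _ h
    omega
  · intro y hy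
    simp only [mem_filter, mem_Ico] at hy
    refine ⟨y - a, ?_, by omega⟩
    simp only [mem_filter, mem_Ico]
    refine ⟨⟨by omega, by omega⟩, ?_⟩
    rw [show a + (y - a) = y by omega]
    exact hy.2

lemma card_T (j : ℕ) : (T j).card = 8 * j + 3 := by
  induction j with
  | zero => decide
  | succ j ih =>
    have h1 : range (30 * (j + 1) + 17) = range (30 * j + 17) ∪ Ico (30 * j + 17) (30 * j + 17 + 30) := by
      ext x; simp only [mem_range, mem_union, mem_Ico]; omega
    have h2 : Disjoint (range (30 * j + 17)) (Ico (30 * j + 17) (30 * j + 17 + 30)) := by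
      rw [Finset.disjoint_left]; intro x; simp only [mem_range, mem_Ico]; omega
    rw [T, h1, filter_union, card_union_of_disjoint (disjoint_filter_filter h2), shift_card]
    rw [T] at ih
    omega

/-- The residues modulo `30` of the chosen elements. -/
def tab (i : ℕ) : ℕ :=
  if i < 16 then [0, 6, 12, 10, 16, 22, 8, 14, 15, 21, 27, 25, 1, 7, 23, 29].getD i 0 else i

lemma tab_small : ∀ v : ℕ, v < 30 → 4 ≤ ((range 16).filter
    (fun i => Int.gcd 30 ((v : ℤ) - (tab i : ℤ)) = 1)).card := by
  decide

/-- For every integer `w`, at least `8 j + 4` of the first `30 j + 16` elements differ from `w`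
by an integer prime to `30`. -/
lemma many (j : ℕ) (w : ℤ) :
    8 * j + 4 ≤ ((range (30 * j + 16)).filter (fun i => Int.gcd 30 (w - (tab i : ℤ)) = 1)).card := by
  induction j with
  | zero =>
    have h0 : ((w % 30).toNat : ℤ) = w % 30 := Int.toNat_of_nonneg (Int.emod_nonneg _ (by norm_num))
    have h := tab_small (w % 30).toNat (by have := Int.emod_lt_of_pos w (b := 30) (by norm_num); omega)
    refine le_trans h (le_of_eq ?_)
    congr 1
    apply Finset.filter_congr
    intro i _
    rw [h0, ← Int.isCoprime_iff_gcd_eq_one, ← Int.isCoprime_iff_gcd_eq_one]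
    have h1 : w - (tab i : ℤ) = (w % 30 - (tab i : ℤ)) + 30 * (w / 30) := by
      have := Int.emod_add_mul_ediv w 30
      linarith
    rw [h1, IsCoprime.add_mul_left_right_iff]
  | succ j ih =>
    have h1 : range (30 * (j + 1) + 16) = range (30 * j + 16) ∪ Ico (30 * j + 16) (30 * j + 16 + 30) := by
      ext x; simp only [mem_range, mem_union, mem_Ico]; omega
    have h2 : Disjoint (range (30 * j + 16)) (Ico (30 * j + 16) (30 * j + 16 + 30)) := by
      rw [Finset.disjoint_left]; intro x; simp only [mem_range, mem_Ico]; omega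
    rw [h1, filter_union, card_union_of_disjoint (disjoint_filter_filter h2)]
    have h3 : ((Ico (30 * j + 16) (30 * j + 16 + 30)).filter
        (fun i => Int.gcd 30 (w - (tab i : ℤ)) = 1)).card = 8 := by
      rw [← shift_card (30 * j + 16) ((-w) % 30).toNat]
      congr 1
      apply Finset.filter_congr
      intro i hi
      rw [mem_Ico] at hi
      have ht : tab i = i := by rw [tab, if_neg (by omega)]
      have h0 : (((-w) % 30).toNat : ℤ) = (-w) % 30 :=
        Int.toNat_of_nonneg (Int.emod_nonneg _ (by norm_num))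
      rw [ht, ← Int.isCoprime_iff_gcd_eq_one, ← Nat.isCoprime_iff_coprime]
      push_cast
      rw [h0]
      have h4 : w - (i : ℤ) = -((-w) % 30 + i + 30 * ((-w) / 30)) := by
        have := Int.emod_add_mul_ediv (-w) 30
        linarith
      rw [h4, IsCoprime.neg_right_iff, IsCoprime.add_mul_left_right_iff]
    rw [h3]
    omega

/-- Large distinct primes. -/
noncomputable def q (j i : ℕ) : ℕ := Nat.nth Nat.Prime (30 * j + 50 + i)

lemma q_prime (j i : ℕ) : (q j i).Prime := Nat.prime_nth_prime _

lemma q_large (j i : ℕ) : 30 * j + 50 < q j i := by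
  have := Nat.add_two_le_nth_prime (30 * j + 50 + i)
  unfold q
  omega

lemma q_inj (j a b : ℕ) (h : q j a = q j b) : a = b := by
  have := Nat.nth_injective Nat.infinite_setOfPred_prime h
  omega

/-- The product of the large primes. -/
noncomputable def Q (j : ℕ) : ℕ := ∏ i ∈ T j, q j i

/-- The modulus. -/
noncomputable def N (j : ℕ) : ℕ := 30 * Q j

lemma coprime_q (j i : ℕ) : Nat.Coprime 30 (q j i) := by
  have h := q_prime j i
  rw [Nat.coprime_comm, h.coprime_iff_not_dvd]
  intro hd
  have := Nat.le_of_dvd (by norm_num) hd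
  have := q_large j i
  omega

lemma coprime_Q (j : ℕ) : Nat.Coprime 30 (Q j) := Nat.Coprime.prod_right fun i _ => coprime_q j i

lemma Q_pos (j : ℕ) : 0 < Q j := Finset.prod_pos fun i _ => (q_prime j i).pos

/-- The integers representing the total dominating set. -/
noncomputable def d (j i : ℕ) : ℕ := (Nat.chineseRemainder (coprime_Q j) (tab i) i : ℕ)

lemma d_mod (j i : ℕ) : (d j i : ℤ) ≡ tab i [ZMOD 30] :=
  (Int.natCast_modEq_iff (n := 30)).2 (Nat.chineseRemainder (coprime_Q j) (tab i) i).2.1

lemma d_modQ (j i : ℕ) : (d j i : ℤ) ≡ i [ZMOD Q j] :=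
  Int.natCast_modEq_iff.2 (Nat.chineseRemainder (coprime_Q j) (tab i) i).2.2

lemma isCoprime_N (j : ℕ) (x : ℤ) : IsCoprime (N j : ℤ) x ↔
    IsCoprime (30 : ℤ) x ∧ ∀ i ∈ T j, ¬ (q j i : ℤ) ∣ x := by
  unfold N Q
  push_cast
  rw [IsCoprime.mul_left_iff, IsCoprime.prod_left_iff]
  refine and_congr_right fun _ => forall₂_congr fun i _ => ?_
  exact (Nat.prime_iff_prime_int.1 (q_prime j i)).irreducible.coprime_iff_not_dvd

/-- Total domination: every integer differs from some `d j i` by an integer prime to `N j`. -/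
lemma dominates (j : ℕ) (w : ℤ) : ∃ i < 30 * j + 16, IsCoprime (N j : ℤ) (w - d j i) := by
  classical
  by_contra hcon
  push Not at hcon
  set good := (range (30 * j + 16)).filter (fun i => Int.gcd 30 (w - (tab i : ℤ)) = 1) with hgood
  have hsub : good ⊆ (T j).biUnion (fun l => (range (30 * j + 16)).filter
      (fun i => (q j l : ℤ) ∣ w - d j i)) := by
    intro i hi
    rw [hgood, mem_filter, mem_range] at hi
    have h1 := hcon i hi.1
    rw [isCoprime_N] at h1
    have h2 : IsCoprime (30 : ℤ) (w - d j i) := by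
      have h3 := (d_mod j i).symm.dvd
      obtain ⟨c, hc⟩ := h3
      have h4 : w - (d j i : ℤ) = (w - tab i) + 30 * (-c) := by linarith
      rw [h4, IsCoprime.add_mul_left_right_iff, Int.isCoprime_iff_gcd_eq_one]
      exact hi.2
    push Not at h1
    obtain ⟨l, hl, hl2⟩ := h1 h2
    rw [mem_biUnion]
    exact ⟨l, hl, mem_filter.2 ⟨mem_range.2 hi.1, hl2⟩⟩
  have hcard : ((T j).biUnion (fun l => (range (30 * j + 16)).filter
      (fun i => (q j l : ℤ) ∣ w - d j i))).card ≤ (T j).card * 1 := by
    apply Finset.card_biUnion_le_card_mul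
    intro l hl
    rw [Finset.card_le_one]
    intro a ha b hb
    rw [mem_filter, mem_range] at ha hb
    have h1 : (q j l : ℤ) ∣ (d j b : ℤ) - d j a := by
      have := dvd_sub ha.2 hb.2
      have h2 : w - (d j a : ℤ) - (w - d j b) = (d j b : ℤ) - d j a := by ring
      rwa [h2] at this
    have hqQ : (q j l : ℤ) ∣ (Q j : ℤ) := by
      exact_mod_cast Finset.dvd_prod_of_mem (q j) hl
    have h3 : (q j l : ℤ) ∣ (b : ℤ) - a := by
      have ha' := (hqQ.trans (d_modQ j a).dvd)
      have hb' := (hqQ.trans (d_modQ j b).dvd)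
      have h4 : (b : ℤ) - a = ((b : ℤ) - d j b) - (a - d j a) + (d j b - d j a) := by ring
      rw [h4]
      exact dvd_add (dvd_sub hb' ha') h1
    have h5 := q_large j l
    by_contra hne
    have h6 : ((b : ℤ) - a) ≠ 0 := by
      intro h; apply hne; omega
    have h7 := Int.le_of_dvd (abs_pos.2 h6) ((dvd_abs _ _).2 h3)
    have h8 : |(b : ℤ) - a| < 30 * j + 16 := by
      rw [abs_lt]; constructor <;> omega
    omega
  have h1 := Finset.card_le_card hsub
  have h2 : 8 * j + 4 ≤ good.card := many j w
  rw [card_T] at hcard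
  omega

/-- A block of `30 j + 17` consecutive integers none of which is prime to `N j`. -/
lemma gap (j : ℕ) : ∃ a : ℤ, ∀ i < 30 * j + 17, ¬ IsCoprime (N j : ℤ) (a + i) := by
  classical
  obtain ⟨k, hk⟩ := Nat.chineseRemainderOfFinset (fun i => q j i - i) (fun i => q j i) (T j)
    (fun i _ => (q_prime j i).ne_zero) (by
      intro a _ b _ hab
      exact (Nat.coprime_primes (q_prime j a) (q_prime j b)).2 fun h => hab (q_inj j a b h))
  obtain ⟨a, ha1, ha2⟩ := Nat.chineseRemainder (coprime_Q j) 20 k
  refine ⟨a, fun i hi hcop => ?_⟩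
  rw [isCoprime_N] at hcop
  by_cases hT : i ∈ T j
  · apply hcop.2 i hT
    have hqQ : q j i ∣ Q j := Finset.dvd_prod_of_mem (q j) hT
    have h1 : a ≡ q j i - i [MOD q j i] := (ha2.of_dvd hqQ).trans (hk i hT)
    have h2 : a + i ≡ 0 [MOD q j i] := by
      have h3 := h1.add_right i
      rw [Nat.sub_add_cancel (by have := q_large j i; omega)] at h3
      exact h3.trans (by simp [Nat.ModEq])
    exact_mod_cast (Nat.modEq_zero_iff_dvd.1 h2)
  · have h1 : ¬ Nat.Coprime 30 (20 + i) := by
      intro h
      exact hT (mem_filter.2 ⟨mem_range.2 hi, h⟩)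
    apply h1
    have h2 := hcop.1
    have h3 : Nat.Coprime 30 (a + i) := by
      rw [← Nat.isCoprime_iff_coprime]; exact_mod_cast h2
    have h4 : a + i ≡ 20 + i [MOD 30] := ha1.add_right i
    have h5 := h4.gcd_eq
    unfold Nat.Coprime at h3 ⊢
    rw [Nat.gcd_comm, ← h5, Nat.gcd_comm]
    exact h3

lemma primeFactors_card (j : ℕ) : j ≤ (N j).primeFactors.card := by
  classical
  have h1 : (T j).image (q j) ⊆ (N j).primeFactors := by
    intro p hp
    rw [mem_image] at hp
    obtain ⟨i, hi, rfl⟩ := hp
    rw [Nat.mem_primeFactors]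
    refine ⟨q_prime j i, ?_, ?_⟩
    · exact (Finset.dvd_prod_of_mem (q j) hi).mul_left 30
    · unfold N; have := Q_pos j; positivity
  have h2 : ((T j).image (q j)).card = 8 * j + 3 := by
    rw [Finset.card_image_of_injective _ (fun a b h => q_inj j a b h), card_T]
  have := Finset.card_le_card h1
  omega

end Pool.Agent.R5.JB
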